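import Pool.Agent.Helper13.TW.StA

/-!
# Module LIN of project TW: open arcs as closed lines, Tietze
-/

set_option autoImplicit false

namespace Pool.Agent.Helper16.TW

open Set Topology Pool.Agent.Helper13.TR Pool.Agent.Helper13.TW

private lemma curve {S : Type} [TopologicalSpace S] [T2Space S] (g : unitInterval → S)
    (hg : Continuous g) (V : Set S) (h : ∀ s : unitInterval, s ≠ 0 → s ≠ 1 → g s ∈ V)
    (h0 : g 0 ∉ V) (h1 : g 1 ∉ V)
    (hi : ∀ s t : unitInterval, s ≠ 0 → s ≠ 1 → t ≠ 0 → t ≠ 1 → g s = g t → s = t) :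
    ∃ ψ : ℝ → ↥V, IsClosedEmbedding ψ ∧ range ψ = Subtype.val ⁻¹' (range g) := by
  have n0 : ∀ t : ℝ, unitInterval.sigmoid t ≠ 0 := fun t => (unitInterval.sigmoid_pos t).ne'
  have n1 : ∀ t : ℝ, unitInterval.sigmoid t ≠ 1 := fun t => (unitInterval.sigmoid_lt_one t).ne
  have hr : ∀ s : unitInterval, s ≠ 0 → s ≠ 1 → ∃ t, unitInterval.sigmoid t = s := by
    intro s h0 h1
    have hs : s ∈ range unitInterval.sigmoid := by
      rw [unitInterval.range_sigmoid]
      exact ⟨unitInterval.pos_iff_ne_zero.mpr h0, unitInterval.lt_one_iff_ne_one.mpr h1⟩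
    exact hs
  have key : ∀ F : Set unitInterval,
      (fun t => (⟨g (unitInterval.sigmoid t), h _ (n0 t) (n1 t)⟩ : ↥V)) ''
        (unitInterval.sigmoid ⁻¹' F) = Subtype.val ⁻¹' (g '' F) := by
    intro F
    ext v
    constructor
    · rintro ⟨t, ht, rfl⟩
      exact ⟨_, ht, rfl⟩
    · rintro ⟨s, hs, hv⟩
      have s0 : s ≠ 0 := by
        rintro rfl
        exact h0 (by rw [hv]; exact v.2)
      have s1 : s ≠ 1 := by
        rintro rfl
        exact h1 (by rw [hv]; exact v.2)
      obtain ⟨t, ht⟩ := hr s s0 s1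
      refine ⟨t, ?_, ?_⟩
      · show unitInterval.sigmoid t ∈ F
        rw [ht]
        exact hs
      · refine Subtype.ext ?_
        show g (unitInterval.sigmoid t) = v
        rw [ht]
        exact hv
  refine ⟨fun t => ⟨g (unitInterval.sigmoid t), h _ (n0 t) (n1 t)⟩, ?_, ?_⟩
  · refine IsClosedEmbedding.of_continuous_injective_isClosedMap ?_ ?_ ?_
    · exact (hg.comp unitInterval.continuous_sigmoid).subtype_mk _
    · intro a b hab
      have := congrArg Subtype.val hab
      exact unitInterval.sigmoid_injective (hi _ _ (n0 a) (n1 a) (n0 b) (n1 b) this)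
    · intro C hC
      obtain ⟨F, hF, rfl⟩ := (Topology.isEmbedding_sigmoid.isInducing.isClosed_iff).mp hC
      have hK : IsClosed (g '' F) := (hF.isCompact.image hg).isClosed
      rw [key]
      exact hK.preimage continuous_subtype_val
  · have := key univ
    rw [preimage_univ, image_univ, image_univ] at this
    exact this

private lemma part3 (Y : Type) [TopologicalSpace Y] [TopologicalSpace.MetrizableSpace Y]
    (ψ : ℝ → Y) (hψ : IsClosedEmbedding ψ) : ∃ h : C(Y, ℝ), ∀ t, h (ψ t) = t := by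
  obtain ⟨h, hh⟩ := ContinuousMap.exists_extension hψ (ContinuousMap.id ℝ)
  exact ⟨h, fun t => by
    have := congrArg (fun f : C(ℝ, ℝ) => f t) hh
    exact this⟩

private lemma part4 (Y : Type) [TopologicalSpace Y] [TopologicalSpace.MetrizableSpace Y]
    (D : Set Y) (p q : Y) (hD : IsArc D p q) : ∃ h : C(Y, ℝ), InjOn h D := by
  obtain ⟨γ, hγ, rfl⟩ := hD
  have hce : IsClosedEmbedding γ := γ.continuous.isClosedEmbedding hγ
  obtain ⟨h, hh⟩ := ContinuousMap.exists_extension hce
    (⟨fun t : unitInterval => (t : ℝ), continuous_subtype_val⟩ : C(unitInterval, ℝ))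
  have e : ∀ t : unitInterval, h (γ t) = t := fun t => by
    have := congrArg (fun f : C(unitInterval, ℝ) => f t) hh
    exact this
  refine ⟨h, ?_⟩
  rintro x ⟨s, rfl⟩ y ⟨t, rfl⟩ hxy
  rw [e, e] at hxy
  rw [Subtype.ext hxy]

theorem hLIN (hARB : StARB) (hSCL : StSCL) : StLIN := by
  refine ⟨?_, ?_, part3, part4⟩
  · intro S _ _ D V₁ p q hD hV hp hq
    obtain ⟨γ, hγ, rfl⟩ := hD
    have h0 : γ 0 = p := γ.source
    have h1 : γ 1 = q := γ.target
    refine curve γ γ.continuous V₁ ?_ (by rw [h0]; exact hp) (by rw [h1]; exact hq)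
      (fun s t _ _ _ _ h => hγ h)
    intro s s0 s1
    refine hV ⟨mem_range_self s, ?_⟩
    rintro (h | h)
    · exact s0 (hγ (h.trans h0.symm))
    · exact s1 (hγ (h.trans h1.symm))
  · intro S _ _ J p hJ hp
    obtain ⟨a, b, D₁, D₂, hD1, hD2, -, hU⟩ := id hJ
    have hab := (hARB.1 S D₁ a b hD1)
    have ha : a ∈ J := by rw [← hU]; exact Or.inl hab.2.2.1
    have hb : b ∈ J := by rw [← hU]; exact Or.inl hab.2.2.2.1
    have hne : a ≠ b := hab.2.2.2.2.1
    obtain ⟨q, hq, hpq⟩ : ∃ q ∈ J, p ≠ q := by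
      by_cases h : p = a
      · exact ⟨b, hb, by rw [h]; exact hne⟩
      · exact ⟨a, ha, h⟩
    obtain ⟨A₁, A₂, ⟨γ₁, hγ₁, rfl⟩, ⟨γ₂, hγ₂, rfl⟩, hI, hJU⟩ := (hSCL S J hJ).1 p hp q hq hpq
    have hcl : ∀ s t : unitInterval, γ₁ s = γ₂ t → (s = 0 ∧ t = 0) ∨ (s = 1 ∧ t = 1) := by
      intro s t h
      have hm : γ₁ s ∈ range γ₁ ∩ range γ₂ := ⟨mem_range_self s, by rw [h]; exact mem_range_self t⟩
      rw [hI] at hm
      rcases hm with hm | hm
      · left
        exact ⟨hγ₁ (hm.trans γ₁.source.symm), hγ₂ ((h.symm.trans hm).trans γ₂.source.symm)⟩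
      · right
        exact ⟨hγ₁ (hm.trans γ₁.target.symm), hγ₂ ((h.symm.trans hm).trans γ₂.target.symm)⟩
    set g : Path p p := γ₁.trans γ₂.symm with hg
    -- the values of `g`
    have g1 : ∀ s : unitInterval, (s : ℝ) ≤ 1 / 2 → ∃ s' : unitInterval, (s' : ℝ) = 2 * s ∧ g s = γ₁ s' := by
      intro s hs
      refine ⟨⟨2 * s, ⟨by have := s.2.1; linarith, by linarith⟩⟩, rfl, ?_⟩
      rw [hg, Path.trans_apply, dif_pos hs]
    have g2 : ∀ s : unitInterval, ¬ (s : ℝ) ≤ 1 / 2 →
        ∃ s' : unitInterval, (s' : ℝ) = 2 - 2 * s ∧ g s = γ₂ s' := by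
      intro s hs
      push Not at hs
      refine ⟨⟨2 - 2 * s, ⟨by have := s.2.2; linarith, by linarith⟩⟩, rfl, ?_⟩
      rw [hg, Path.trans_apply, dif_neg (not_le.mpr hs), Path.symm_apply]
      show γ₂ (unitInterval.symm _) = γ₂ _
      congr 1
      refine Subtype.ext ?_
      simp only [unitInterval.coe_symm_eq]
      ring
    have hcross : ∀ s t : unitInterval, (s : ℝ) ≤ 1 / 2 → ¬ (t : ℝ) ≤ 1 / 2 → s ≠ 0 → g s ≠ g t := by
      intro s t hs ht s0 h
      obtain ⟨s', hs', e1⟩ := g1 s hs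
      obtain ⟨t', ht', e2⟩ := g2 t ht
      rw [e1, e2] at h
      rcases hcl s' t' h with ⟨h3, -⟩ | ⟨-, h4⟩
      · apply s0
        refine Subtype.ext ?_
        have : (s' : ℝ) = 0 := by rw [h3]; rfl
        show (s : ℝ) = 0
        linarith
      · apply ht
        have : (t' : ℝ) = 1 := by rw [h4]; rfl
        linarith
    have hrange : range g = J := by
      rw [hg, Path.trans_range, Path.symm_range, hJU]
    rw [← hrange]
    refine curve g g.continuous ({p}ᶜ) ?_ ?_ ?_ ?_
    · intro s s0 s1 hs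
      have hs' : g s = p := hs
      by_cases h : (s : ℝ) ≤ 1 / 2
      · obtain ⟨s', e, e1⟩ := g1 s h
        rw [e1] at hs'
        have h3 : s' = 0 := hγ₁ (hs'.trans γ₁.source.symm)
        apply s0
        refine Subtype.ext ?_
        have : (s' : ℝ) = 0 := by rw [h3]; rfl
        show (s : ℝ) = 0
        linarith
      · obtain ⟨s', e, e1⟩ := g2 s h
        rw [e1] at hs'
        have h3 : s' = 0 := hγ₂ (hs'.trans γ₂.source.symm)
        apply s1
        refine Subtype.ext ?_
        have : (s' : ℝ) = 0 := by rw [h3]; rfl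
        show (s : ℝ) = 1
        linarith
    · intro h
      exact h g.source
    · intro h
      exact h g.target
    · intro s t s0 s1 t0 t1 h
      by_cases hs : (s : ℝ) ≤ 1 / 2
      · by_cases ht : (t : ℝ) ≤ 1 / 2
        · obtain ⟨s', e, e1⟩ := g1 s hs
          obtain ⟨t', e', e1'⟩ := g1 t ht
          rw [e1, e1'] at h
          have h3 : s' = t' := hγ₁ h
          refine Subtype.ext ?_
          rw [h3] at e
          linarith
        · exact absurd h (hcross s t hs ht s0)
      · by_cases ht : (t : ℝ) ≤ 1 / 2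
        · exact absurd h.symm (hcross t s ht hs t0)
        · obtain ⟨s', e, e1⟩ := g2 s hs
          obtain ⟨t', e', e1'⟩ := g2 t ht
          rw [e1, e1'] at h
          have h3 : s' = t' := hγ₂ h
          refine Subtype.ext ?_
          rw [h3] at e
          linarith

end Pool.Agent.Helper16.TW
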