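import Pool.Agent.Helper47.TW.A6A7
import Pool.Agent.Helper83.TW.A8
import Pool.Agent.Helper83.TW.A9
import Pool.Agent.Helper77.TW.A10

/-!
# Prime sums of completely multiplicative functions (module A11)
-/

set_option autoImplicit false

namespace Pool.Agent.Helper16.TW

open Polynomial Finset
open Pool.Agent.Helper54.PT

/-- The coefficients of the logarithmic derivative. -/
noncomputable def lam {F : Type} [Field F] [Finite F] (χ : F[X] → ℂ) (k : ℕ) : ℂ :=
  ∑ j ∈ k.divisors, ∑ P ∈ prm F j, (j : ℂ) * χ P.1 ^ (k / j)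

theorem a11_mon_zero {F : Type} [Field F] [Finite F] : mon F 0 = {(1 : F[X])} := by
  ext f
  rw [mem_mon, mem_singleton]
  constructor
  · rintro ⟨h, h'⟩
    exact eq_one_of_monic_natDegree_zero h h'
  · rintro rfl
    exact ⟨monic_one, natDegree_one⟩

theorem a11_norm_le {F : Type} [Field F] (χ : F[X] → ℂ)
    (habs : ∀ f : F[X], f.Monic → χ f = 0 ∨ ‖χ f‖ = 1) (f : F[X]) (hf : f.Monic) :
    ‖χ f‖ ≤ 1 := by
  rcases habs f hf with h | h
  · rw [h, norm_zero]; exact zero_le_one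
  · exact h.le

theorem a11_lam_le {F : Type} [Field F] [Finite F] (χ : F[X] → ℂ)
    (habs : ∀ f : F[X], f.Monic → χ f = 0 ∨ ‖χ f‖ = 1)
    (hA7 : ∀ k : ℕ, 1 ≤ k → ∑ j ∈ k.divisors, j * (prm F j).card = Nat.card F ^ k)
    (k : ℕ) (hk : 1 ≤ k) : ‖lam χ k‖ ≤ (Nat.card F : ℝ) ^ k := by
  rw [← Nat.cast_pow, ← hA7 k hk, Nat.cast_sum]
  refine (norm_sum_le _ _).trans (sum_le_sum fun j _ => ?_)
  refine (norm_sum_le _ _).trans ?_
  rw [Nat.cast_mul, mul_comm, ← nsmul_eq_mul]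
  refine sum_le_card_nsmul _ _ _ fun P _ => ?_
  rw [norm_mul, norm_pow, Complex.norm_natCast]
  exact mul_le_of_le_one_right (Nat.cast_nonneg j)
    (pow_le_one₀ (norm_nonneg _) (a11_norm_le χ habs _ P.2.1))

theorem a11_pos (z : ℂ) (hz : z = 0 ∨ ‖z‖ = 1) : 0 ≤ 3 + 4 * z.re + (z ^ 2).re := by
  rcases hz with h | h
  · rw [h]; simp
  · have h1 : z.re ^ 2 + z.im ^ 2 = 1 := by
      have := Complex.sq_norm z
      rw [h, Complex.normSq_apply] at this
      nlinarith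
    have h2 : (z ^ 2).re = z.re ^ 2 - z.im ^ 2 := by
      rw [sq, Complex.mul_re]; ring
    rw [h2]
    nlinarith [sq_nonneg (1 + z.re)]

theorem a11_hpos {F : Type} [Field F] [Finite F] (χ : F[X] → ℂ)
    (habs : ∀ f : F[X], f.Monic → χ f = 0 ∨ ‖χ f‖ = 1)
    (hA7 : ∀ k : ℕ, 1 ≤ k → ∑ j ∈ k.divisors, j * (prm F j).card = Nat.card F ^ k)
    (θ : ℂ) (hθ : ‖θ‖ = 1) (k : ℕ) (hk : 1 ≤ k) :
    0 ≤ 3 * (Nat.card F : ℝ) ^ k + 4 * (θ ^ k * lam χ k).re +
      (θ ^ (2 * k) * lam (fun f => χ f ^ 2) k).re := by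
  have e1 : (Nat.card F : ℝ) ^ k = ∑ j ∈ k.divisors, ∑ _P ∈ prm F j, (j : ℝ) := by
    rw [← Nat.cast_pow, ← hA7 k hk, Nat.cast_sum]
    refine sum_congr rfl fun j _ => ?_
    rw [sum_const, nsmul_eq_mul, Nat.cast_mul, mul_comm]
  have e2 : (θ ^ k * lam χ k).re =
      ∑ j ∈ k.divisors, ∑ P ∈ prm F j, (j : ℝ) * (θ ^ k * χ P.1 ^ (k / j)).re := by
    rw [lam, mul_sum, Complex.re_sum]
    refine sum_congr rfl fun j _ => ?_
    rw [mul_sum, Complex.re_sum]
    refine sum_congr rfl fun P _ => ?_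
    rw [← Complex.re_ofReal_mul, Complex.ofReal_natCast]
    congr 1; ring
  have e3 : (θ ^ (2 * k) * lam (fun f => χ f ^ 2) k).re =
      ∑ j ∈ k.divisors, ∑ P ∈ prm F j, (j : ℝ) * ((θ ^ k * χ P.1 ^ (k / j)) ^ 2).re := by
    rw [lam, mul_sum, Complex.re_sum]
    refine sum_congr rfl fun j _ => ?_
    rw [mul_sum, Complex.re_sum]
    refine sum_congr rfl fun P _ => ?_
    rw [← Complex.re_ofReal_mul, Complex.ofReal_natCast]
    congr 1
    rw [mul_pow, ← pow_mul, ← pow_mul, ← pow_mul, mul_comm k 2, mul_comm (k / j) 2]; ring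
  rw [e1, e2, e3, mul_sum, mul_sum, ← sum_add_distrib, ← sum_add_distrib]
  refine sum_nonneg fun j _ => ?_
  rw [mul_sum, mul_sum, ← sum_add_distrib, ← sum_add_distrib]
  refine sum_nonneg fun P _ => ?_
  have h := a11_pos (θ ^ k * χ P.1 ^ (k / j)) (by
    rcases habs P.1 P.2.1 with h | h
    · rcases Nat.eq_zero_or_pos (k / j) with h0 | h0
      · right; rw [h0, pow_zero, mul_one, norm_pow, hθ, one_pow]
      · left; rw [h, zero_pow h0.ne', mul_zero]
    · right; rw [norm_mul, norm_pow, norm_pow, hθ, h, one_pow, one_pow, mul_one])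
  have hj : (0 : ℝ) ≤ j := Nat.cast_nonneg j
  nlinarith [mul_nonneg hj h]

theorem a11_geom (q : ℝ) (hq : 2 ≤ q) (n : ℕ) : ∑ j ∈ range (n + 1), q ^ j ≤ 2 * q ^ n := by
  induction n with
  | zero => simp
  | succ n ih =>
    rw [sum_range_succ]
    have : 2 * q ^ n ≤ q ^ (n + 1) := by
      rw [pow_succ, mul_comm]
      exact mul_le_mul_of_nonneg_left hq (by positivity)
    linarith

/-- The prime sums from the roots. -/
theorem a11_main {F : Type} [Field F] [Finite F] (χ : F[X] → ℂ)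
    (habs : ∀ f : F[X], f.Monic → χ f = 0 ∨ ‖χ f‖ = 1)
    (hA7 : ∀ k : ℕ, 1 ≤ k → ∑ j ∈ k.divisors, j * (prm F j).card = Nat.card F ^ k)
    (k : ℕ) (hk : 1 ≤ k) :
    k * ‖∑ P ∈ prm F k, χ P.1‖ ≤ ‖lam χ k‖ + 2 * (Nat.card F : ℝ) ^ (k / 2) := by
  have hq : (2 : ℝ) ≤ Nat.card F := by
    have : 1 < Nat.card F := Finite.one_lt_card
    exact_mod_cast this
  have hk0 : k ≠ 0 := by omega
  have e1 : lam χ k = (k : ℂ) * ∑ P ∈ prm F k, χ P.1 +
      ∑ j ∈ k.properDivisors, ∑ P ∈ prm F j, (j : ℂ) * χ P.1 ^ (k / j) := by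
    rw [lam, ← Nat.insert_self_properDivisors hk0, sum_insert Nat.self_notMem_properDivisors,
      mul_sum]
    congr 1
    refine sum_congr rfl fun P _ => ?_
    rw [Nat.div_self hk, pow_one]
  have e2 : ‖∑ j ∈ k.properDivisors, ∑ P ∈ prm F j, (j : ℂ) * χ P.1 ^ (k / j)‖ ≤
      2 * (Nat.card F : ℝ) ^ (k / 2) := by
    refine (norm_sum_le _ _).trans ?_
    calc ∑ j ∈ k.properDivisors, ‖∑ P ∈ prm F j, (j : ℂ) * χ P.1 ^ (k / j)‖
        ≤ ∑ j ∈ k.properDivisors, (Nat.card F : ℝ) ^ j := by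
          refine sum_le_sum fun j hj => ?_
          have hj1 : 1 ≤ j := Nat.pos_of_mem_properDivisors hj
          refine (norm_sum_le _ _).trans ?_
          have h2 : ∑ P ∈ prm F j, ‖(j : ℂ) * χ P.1 ^ (k / j)‖ ≤ (prm F j).card • (j : ℝ) := by
            refine sum_le_card_nsmul _ _ _ fun P _ => ?_
            rw [norm_mul, norm_pow, Complex.norm_natCast]
            exact mul_le_of_le_one_right (Nat.cast_nonneg j)
              (pow_le_one₀ (norm_nonneg _) (a11_norm_le χ habs _ P.2.1))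
          refine h2.trans ?_
          rw [nsmul_eq_mul, mul_comm]
          have h3 : j * (prm F j).card ≤ Nat.card F ^ j := by
            rw [← hA7 j hj1]
            exact single_le_sum (f := fun j => j * (prm F j).card) (fun _ _ => Nat.zero_le _)
              (Nat.mem_divisors.2 ⟨dvd_rfl, by omega⟩)
          exact_mod_cast h3
      _ ≤ ∑ j ∈ range (k / 2 + 1), (Nat.card F : ℝ) ^ j := by
          refine sum_le_sum_of_subset_of_nonneg ?_ fun _ _ _ => by positivity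
          intro j hj
          rw [mem_range]
          obtain ⟨⟨c, hc⟩, h2⟩ := Nat.mem_properDivisors.1 hj
          have hj1 : 1 ≤ j := Nat.pos_of_mem_properDivisors hj
          have hc2 : 2 ≤ c := by
            rcases Nat.lt_or_ge c 2 with h3 | h3
            · interval_cases c
              · omega
              · omega
            · exact h3
          have : j * 2 ≤ k := by rw [hc]; exact Nat.mul_le_mul_left _ hc2
          omega
      _ ≤ 2 * (Nat.card F : ℝ) ^ (k / 2) := a11_geom _ hq _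
  have e3 : (k : ℂ) * ∑ P ∈ prm F k, χ P.1 = lam χ k -
      ∑ j ∈ k.properDivisors, ∑ P ∈ prm F j, (j : ℂ) * χ P.1 ^ (k / j) := by
    rw [e1]; ring
  have e4 : (k : ℝ) * ‖∑ P ∈ prm F k, χ P.1‖ = ‖(k : ℂ) * ∑ P ∈ prm F k, χ P.1‖ := by
    rw [norm_mul, Complex.norm_natCast]
  rw [e4, e3]
  exact (norm_sub_le _ _).trans (add_le_add_right e2 _)

theorem a11_norm_sum_le (s : Multiset ℂ) (r : ℝ) (hr : ∀ α ∈ s, ‖α‖ ≤ r) (k : ℕ) :
    ‖(s.map fun α => α ^ k).sum‖ ≤ s.card * r ^ k := by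
  induction s using Multiset.induction_on with
  | empty => simp
  | cons a s ih =>
    rw [Multiset.map_cons, Multiset.sum_cons, Multiset.card_cons]
    have h1 : ‖a ^ k‖ ≤ r ^ k := by
      rw [norm_pow]
      exact pow_le_pow_left₀ (norm_nonneg _) (hr a (Multiset.mem_cons_self _ _)) _
    have h2 := ih fun α hα => hr α (Multiset.mem_cons_of_mem hα)
    refine (norm_add_le _ _).trans ?_
    push_cast
    linarith

end Pool.Agent.Helper16.TW

namespace Pool.Agent.Helper54.PT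

open Polynomial Finset Filter Topology
open Pool.Agent.Helper16.TW

/-- A11: prime sums of characters -/
theorem prime_sum_bound {F : Type} [Field F] [Finite F] (χ : F[X] → ℂ) (h1 : χ 1 = 1)
    (hmul : ∀ f g : F[X], f.Monic → g.Monic → χ (f * g) = χ f * χ g)
    (habs : ∀ f : F[X], f.Monic → χ f = 0 ∨ ‖χ f‖ = 1) (d : ℕ)
    (ha : ∀ m, d ≤ m → ∑ f ∈ mon F m, χ f = 0)
    (ha2 : ∀ m, d ≤ m → ∑ f ∈ mon F m, χ f ^ 2 = 0) (k : ℕ) (hk : 1 ≤ k) :
    k * ‖∑ P ∈ prm F k, χ P.1‖ ≤ d * (Nat.card F * (1 - 1 / (40 * (d + 1) : ℝ))) ^ k +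
      2 * (Nat.card F : ℝ) ^ (k / 2) := by
  have hA7 : ∀ k : ℕ, 1 ≤ k → ∑ j ∈ k.divisors, j * (prm F j).card = Nat.card F ^ k :=
    fun k hk => sum_prm k hk
  have hq : (2 : ℝ) ≤ Nat.card F := by
    have : 1 < Nat.card F := Finite.one_lt_card
    exact_mod_cast this
  have hmul2 : ∀ f g : F[X], f.Monic → g.Monic → (fun f => χ f ^ 2) (f * g) =
      (fun f => χ f ^ 2) f * (fun f => χ f ^ 2) g := by
    intro f g hf hg
    simp only
    rw [hmul f g hf hg, mul_pow]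
  have habs2 : ∀ f : F[X], f.Monic → (fun f => χ f ^ 2) f = 0 ∨ ‖(fun f => χ f ^ 2) f‖ = 1 := by
    intro f hf
    simp only
    rcases habs f hf with h | h
    · left; rw [h]; norm_num
    · right; rw [norm_pow, h, one_pow]
  obtain ⟨s, hs, hs2⟩ := exists_roots (fun m => ∑ f ∈ mon F m, χ f) (lam χ) d
    (by rw [a11_mon_zero, sum_singleton, h1]) ha (mon_recurrence χ h1 hmul)
  obtain ⟨s', hs', hs2'⟩ := exists_roots (fun m => ∑ f ∈ mon F m, χ f ^ 2)
    (lam fun f => χ f ^ 2) d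
    (by rw [a11_mon_zero, sum_singleton, h1, one_pow]) ha2
    (mon_recurrence (fun f => χ f ^ 2) (by rw [h1, one_pow]) hmul2)
  have hb : ∀ α ∈ s, ‖α‖ ≤ (Nat.card F : ℝ) := abs_le_of_power_sums s _ (by linarith)
    fun k hk => by rw [← norm_neg, ← hs2 k hk]; exact a11_lam_le χ habs hA7 k hk
  have hb' : ∀ α ∈ s', ‖α‖ ≤ (Nat.card F : ℝ) := abs_le_of_power_sums s' _ (by linarith)
    fun k hk => by rw [← norm_neg, ← hs2' k hk]; exact a11_lam_le _ habs2 hA7 k hk
  have hz := zero_free s s' (Nat.card F) (by linarith) d hs hs' hb hb' (by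
    intro θ hθ k hk
    have h := a11_hpos χ habs hA7 θ hθ k hk
    rw [hs2 k hk, hs2' k hk, mul_neg, mul_neg, Complex.neg_re, Complex.neg_re] at h
    linarith)
  refine (a11_main χ habs hA7 k hk).trans (add_le_add_left ?_ _)
  rw [hs2 k hk, norm_neg]
  refine (a11_norm_sum_le s _ hz k).trans ?_
  refine mul_le_mul_of_nonneg_right (by exact_mod_cast hs) (pow_nonneg ?_ _)
  refine mul_nonneg (by linarith) ?_
  have h3 : (1 : ℝ) ≤ 40 * (d + 1) := by
    have : (0 : ℝ) ≤ d := Nat.cast_nonneg d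
    linarith
  have h4 : 1 / (40 * ((d : ℝ) + 1)) ≤ 1 := by
    rw [div_le_one (by linarith)]
    exact h3
  linarith

end Pool.Agent.Helper54.PT
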