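import Pool.Agent.Helper16.TW.A11
import Pool.Agent.Helper54.PT.Pd
import Pool.Agent.Helper62.TW.A4A5
import Pool.Agent.Helper45.TW.A1

/-!
# Prime sums of the characters attached to classes and symbols (module A17)
-/

set_option autoImplicit false

namespace Pool.Agent.Helper16.TW

open Polynomial Finset
open Pool.Agent.Helper54.PT

theorem a17_ee_add {ℓ : ℕ} [NeZero ℓ] (x y : ZMod ℓ) : ee (x + y) = ee x * ee y :=
  AddChar.map_add_eq_mul _ x y

theorem a17_ee_zero {ℓ : ℕ} [NeZero ℓ] : ee (0 : ZMod ℓ) = 1 := AddChar.map_zero_eq_one _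

theorem a17_norm_ee {ℓ : ℕ} [NeZero ℓ] (x : ZMod ℓ) : ‖ee x‖ = 1 := AddChar.norm_apply _ x

open Classical in
/-- The character. -/
noncomputable def chr {F : Type} [Field F] {ℓ : ℕ} [NeZero ℓ] (lg : F → ZMod ℓ)
    (G : Finset (Prm F)) (g : Prm F → ZMod ℓ) (b : ZMod ℓ) (f : F[X]) : ℂ :=
  (if ∃ Q ∈ G, Q.1 ∣ f then (0 : ℂ) else ee (∑ Q ∈ G, g Q * sy lg Q.1 f)) *
    ee (b * (f.natDegree : ZMod ℓ))

section

variable {F : Type} [Field F] {ℓ : ℕ} [NeZero ℓ] {lg : F → ZMod ℓ}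

theorem chr_of_dvd (G : Finset (Prm F)) (g : Prm F → ZMod ℓ) (b : ZMod ℓ) {f : F[X]}
    (h : ∃ Q ∈ G, Q.1 ∣ f) : chr lg G g b f = 0 := by
  rw [chr, if_pos h, zero_mul]

theorem chr_of_not (G : Finset (Prm F)) (g : Prm F → ZMod ℓ) (b : ZMod ℓ) {f : F[X]}
    (h : ¬ ∃ Q ∈ G, Q.1 ∣ f) :
    chr lg G g b f = ee (∑ Q ∈ G, g Q * sy lg Q.1 f + b * (f.natDegree : ZMod ℓ)) := by
  rw [chr, if_neg h, a17_ee_add]

theorem chr_one (hlg : IsLog ℓ lg) (G : Finset (Prm F)) (g : Prm F → ZMod ℓ) (b : ZMod ℓ) :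
    chr lg G g b 1 = 1 := by
  rw [chr_of_not]
  · rw [natDegree_one, Nat.cast_zero, mul_zero, add_zero, sum_eq_zero, a17_ee_zero]
    intro Q _
    rw [sy_one hlg Q.2.1, mul_zero]
  · rintro ⟨Q, _, h⟩
    exact Q.2.2.not_isUnit (isUnit_of_dvd_one h)

theorem chr_mul (hlg : IsLog ℓ lg) (G : Finset (Prm F)) (g : Prm F → ZMod ℓ) (b : ZMod ℓ)
    (f h : F[X]) (hf : f.Monic) (hh : h.Monic) :
    chr lg G g b (f * h) = chr lg G g b f * chr lg G g b h := by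
  by_cases h1 : ∃ Q ∈ G, Q.1 ∣ f
  · rw [chr_of_dvd G g b h1, chr_of_dvd, zero_mul]
    obtain ⟨Q, hQ, h2⟩ := h1
    exact ⟨Q, hQ, h2.mul_right _⟩
  by_cases h2 : ∃ Q ∈ G, Q.1 ∣ h
  · rw [chr_of_dvd G g b h2, chr_of_dvd, mul_zero]
    obtain ⟨Q, hQ, h3⟩ := h2
    exact ⟨Q, hQ, h3.mul_left _⟩
  rw [chr_of_not G g b h1, chr_of_not G g b h2, chr_of_not, ← a17_ee_add, hf.natDegree_mul hh]
  · congr 1
    have : ∑ Q ∈ G, g Q * sy lg Q.1 (f * h) =
        ∑ Q ∈ G, g Q * sy lg Q.1 f + ∑ Q ∈ G, g Q * sy lg Q.1 h := by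
      rw [← sum_add_distrib]
      refine sum_congr rfl fun Q hQ => ?_
      rw [sy_mul hlg Q.2.1 Q.2.2 (fun h3 => h1 ⟨Q, hQ, h3⟩) (fun h3 => h2 ⟨Q, hQ, h3⟩), mul_add]
    rw [this]
    push_cast
    ring
  · rintro ⟨Q, hQ, h3⟩
    rcases Q.2.2.prime.dvd_or_dvd h3 with h4 | h4
    · exact h1 ⟨Q, hQ, h4⟩
    · exact h2 ⟨Q, hQ, h4⟩

theorem chr_abs (G : Finset (Prm F)) (g : Prm F → ZMod ℓ) (b : ZMod ℓ) (f : F[X]) :
    chr lg G g b f = 0 ∨ ‖chr lg G g b f‖ = 1 := by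
  by_cases h1 : ∃ Q ∈ G, Q.1 ∣ f
  · left; exact chr_of_dvd G g b h1
  · right; rw [chr_of_not G g b h1, a17_norm_ee]

theorem chr_sq (G : Finset (Prm F)) (g : Prm F → ZMod ℓ) (b : ZMod ℓ) (f : F[X]) :
    chr lg G g b f ^ 2 = chr lg G (fun Q => 2 * g Q) (2 * b) f := by
  by_cases h1 : ∃ Q ∈ G, Q.1 ∣ f
  · rw [chr_of_dvd G g b h1, chr_of_dvd _ _ _ h1]; norm_num
  · rw [chr_of_not G g b h1, chr_of_not _ _ _ h1, sq, ← a17_ee_add]
    congr 1
    have : ∑ Q ∈ G, 2 * g Q * sy lg Q.1 f = 2 * ∑ Q ∈ G, g Q * sy lg Q.1 f := by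
      rw [mul_sum]
      exact sum_congr rfl fun Q _ => by ring
    rw [this]; ring

end

theorem chr_sum {F : Type} [Field F] [Finite F] {ℓ : ℕ} [Fact ℓ.Prime] {lg : F → ZMod ℓ}
    (hlg : IsLog ℓ lg) (G : Finset (Prm F)) (g : Prm F → ZMod ℓ) (b : ZMod ℓ)
    (hne : ∃ Q ∈ G, g Q ≠ 0) (n : ℕ) (hn : ∑ Q ∈ G, Q.1.natDegree ≤ n) :
    ∑ f ∈ mon F n, chr lg G g b f = 0 := by
  have h := sum_mon_eq_zero hlg G g hne n hn
  have h2 : ∑ f ∈ mon F n, chr lg G g b f = (∑ f ∈ mon F n,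
      (open Classical in if ∃ Q ∈ G, Q.1 ∣ f then (0 : ℂ) else
      ee (∑ Q ∈ G, g Q * sy lg Q.1 f))) * ee (b * (n : ZMod ℓ)) := by
    rw [sum_mul]
    refine sum_congr rfl fun f hf => ?_
    rw [chr, (mem_mon.1 hf).2]
  rw [h2, h, zero_mul]

/-- The prime sums of the character. -/
theorem chr_prime_sum {F : Type} [Field F] [Finite F] {ℓ : ℕ} [Fact ℓ.Prime] {lg : F → ZMod ℓ}
    (hlg : IsLog ℓ lg) (hℓ : ℓ ≠ 2) (G : Finset (Prm F)) (g : Prm F → ZMod ℓ) (b : ZMod ℓ)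
    (hne : ∃ Q ∈ G, g Q ≠ 0) (d : ℕ) (hd : ∑ Q ∈ G, Q.1.natDegree ≤ d) (k : ℕ) (hk : 1 ≤ k) :
    k * ‖∑ P ∈ prm F k, chr lg G g b P.1‖ ≤
      d * (Nat.card F * (1 - 1 / (40 * (d + 1) : ℝ))) ^ k + 2 * (Nat.card F : ℝ) ^ (k / 2) := by
  refine prime_sum_bound (chr lg G g b) (chr_one hlg G g b) (chr_mul hlg G g b)
    (fun f _ => chr_abs G g b f) d (fun m hm => chr_sum hlg G g b hne m (hd.trans hm))
    (fun m hm => ?_) k hk
  simp only [chr_sq]
  refine chr_sum hlg G _ _ ?_ m (hd.trans hm)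
  obtain ⟨Q, hQ, h⟩ := hne
  refine ⟨Q, hQ, mul_ne_zero ?_ h⟩
  intro h2
  have h3 : ((2 : ℕ) : ZMod ℓ) = 0 := by exact_mod_cast h2
  rw [ZMod.natCast_eq_zero_iff] at h3
  have h4 := Nat.le_of_dvd (by norm_num) h3
  have h5 : 2 ≤ ℓ := (Fact.out : ℓ.Prime).two_le
  omega

theorem a17_prm_dvd {F : Type} [Field F] (P Q : Prm F) (h : Q.1 ∣ P.1) : Q = P := by
  have h1 : Associated Q.1 P.1 := Q.2.2.associated_of_dvd P.2.2 h
  exact Subtype.ext (eq_of_monic_of_associated Q.2.1 P.2.1 h1)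

end Pool.Agent.Helper16.TW

namespace Pool.Agent.Helper54.PT

open Polynomial Finset Filter Topology
open Pool.Agent.Helper16.TW

section

variable {F : Type} [Field F] [Finite F] {ℓ : ℕ} [Fact ℓ.Prime] {σ : Type} [Fintype σ]
  {lg : F → ZMod ℓ}
  (hrec : ∀ P Q : Prm F, P ≠ Q → sy lg Q.1 P.1 = sy lg P.1 Q.1) (R : σ → Prm F)

/-- A17: prime sums of the characters attached to classes and symbols -/
theorem pd_prime_sum (hlg : IsLog ℓ lg) (hℓ : ℓ ≠ 2) (hR : Function.Injective R)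
    (G : Finset (pd lg hrec R).P) (g : (pd lg hrec R).P → ZMod ℓ) (β : Option σ → ZMod ℓ)
    (hne : (∃ p ∈ G, g p ≠ 0) ∨ ∃ r, β (some r) ≠ 0) (d : ℕ)
    (hd : (pd lg hrec R).dg G + ∑ r, (R r).1.natDegree ≤ d) (k : ℕ) (hk : 1 ≤ k) :
    k * ‖∑ p ∈ ((pd lg hrec R).pr k).filter (fun p => p ∉ G),
      ee (∑ p' ∈ G, g p' * (pd lg hrec R).sym p' p + dot β ((pd lg hrec R).xx p))‖ ≤
      d * (Nat.card F * (1 - 1 / (40 * (d + 1) : ℝ))) ^ k +
        2 * (Nat.card F : ℝ) ^ (k / 2) + d := by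
  classical
  -- the set of moduli and the exponents
  let G1 : Finset (Prm F) := G.map ⟨fun p => p.1, Subtype.val_injective⟩
  let G2 : Finset (Prm F) := (univ : Finset σ).map ⟨R, hR⟩
  have hdisj : Disjoint G1 G2 := by
    rw [Finset.disjoint_left]
    intro Q h1 h2
    obtain ⟨p, _, rfl⟩ := mem_map.1 h1
    obtain ⟨r, _, h3⟩ := mem_map.1 h2
    exact p.2 r h3.symm
  let gg : Prm F → ZMod ℓ := fun Q =>
    if h : ∀ r, Q ≠ R r then g ⟨Q, h⟩ else ∑ r, if R r = Q then β (some r) else 0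
  have hg1 : ∀ p : (pd lg hrec R).P, gg p.1 = g p := fun p => by
    simp only [gg]
    rw [dif_pos p.2]
    rfl
  have hg2 : ∀ r, gg (R r) = β (some r) := fun r => by
    simp only [gg]
    rw [dif_neg (by push Not; exact ⟨r, rfl⟩)]
    rw [sum_eq_single r]
    · rw [if_pos rfl]
    · intro r' _ h
      rw [if_neg (fun h2 => h (hR h2))]
    · intro h; exact absurd (mem_univ _) h
  have hsum : ∀ φ : Prm F → ZMod ℓ, ∑ Q ∈ G1 ∪ G2, gg Q * φ Q =
      ∑ p ∈ G, g p * φ p.1 + ∑ r, β (some r) * φ (R r) := by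
    intro φ
    rw [sum_union hdisj, sum_map, sum_map]
    congr 1
    · exact sum_congr rfl fun p _ => by
        simp only [Function.Embedding.coeFn_mk]
        rw [hg1]
    · exact sum_congr rfl fun r _ => by
        simp only [Function.Embedding.coeFn_mk]
        rw [hg2]
  have hne' : ∃ Q ∈ G1 ∪ G2, gg Q ≠ 0 := by
    rcases hne with ⟨p, hp, h⟩ | ⟨r, h⟩
    · exact ⟨p.1, mem_union_left _ (mem_map.2 ⟨p, hp, rfl⟩), by rw [hg1]; exact h⟩
    · exact ⟨R r, mem_union_right _ (mem_map.2 ⟨r, mem_univ _, rfl⟩), by rw [hg2]; exact h⟩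
  have hd' : ∑ Q ∈ G1 ∪ G2, Q.1.natDegree ≤ d := by
    rw [sum_union hdisj, sum_map, sum_map]
    exact hd
  have hmain := chr_prime_sum hlg hℓ (G1 ∪ G2) gg (β none) hne' d hd' k hk
  have hEq : ∑ p ∈ ((pd lg hrec R).pr k).filter (fun p => p ∉ G),
      ee (∑ p' ∈ G, g p' * (pd lg hrec R).sym p' p + dot β ((pd lg hrec R).xx p)) =
      ∑ P ∈ prm F k, chr lg (G1 ∪ G2) gg (β none) P.1 := by
    symm
    rw [← sum_filter_of_ne (s := prm F k) (p := fun P => P ∉ G1 ∪ G2)]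
    · symm
      refine sum_bij (fun p _ => p.1) ?_ ?_ ?_ ?_
      · intro p hp
        obtain ⟨h1, h2⟩ := mem_filter.1 hp
        refine mem_filter.2 ⟨mem_prm.2 (((pd lg hrec R).mem_pr k p).1 h1), ?_⟩
        intro h3
        rcases mem_union.1 h3 with h4 | h4
        · obtain ⟨p', h5, h6⟩ := mem_map.1 h4
          have h7 : p' = p := Subtype.ext h6
          rw [h7] at h5
          exact h2 h5
        · obtain ⟨r, _, h6⟩ := mem_map.1 h4
          exact p.2 r h6.symm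
      · intro p _ p' _ h
        exact Subtype.ext h
      · intro P hP
        obtain ⟨h1, h2⟩ := mem_filter.1 hP
        have h3 : ∀ r, P ≠ R r := fun r h => h2 (mem_union_right _
          (mem_map.2 ⟨r, mem_univ _, h.symm⟩))
        refine ⟨⟨P, h3⟩, mem_filter.2 ⟨((pd lg hrec R).mem_pr k _).2 (mem_prm.1 h1), ?_⟩, rfl⟩
        intro h4
        exact h2 (mem_union_left _ (mem_map.2 ⟨_, h4, rfl⟩))
      · intro p hp
        obtain ⟨h1, h2⟩ := mem_filter.1 hp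
        rw [chr_of_not]
        · congr 1
          rw [hsum fun Q => sy lg Q.1 p.1.1, add_assoc]
          congr 1
          · refine sum_congr rfl fun p' hp' => ?_
            have h3 : p.1 ≠ p'.1 := fun h => h2 (by
              have h7 : p = p' := Subtype.ext h
              rw [h7]; exact hp')
            rw [hrec p.1 p'.1 h3]
            rfl
          · rw [dot, Fintype.sum_option, add_comm]
            congr 1
            refine sum_congr rfl fun r _ => ?_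
            rw [hrec p.1 (R r) (p.2 r)]
            rfl
        · rintro ⟨Q, hQ, h3⟩
          have h4 := a17_prm_dvd p.1 Q h3
          rw [h4] at hQ
          rcases mem_union.1 hQ with h5 | h5
          · obtain ⟨p', h6, h7⟩ := mem_map.1 h5
            have h8 : p' = p := Subtype.ext h7
            rw [h8] at h6
            exact h2 h6
          · obtain ⟨r, _, h6⟩ := mem_map.1 h5
            exact p.2 r h6.symm
    · intro P _ h h2
      exact h (chr_of_dvd _ _ _ ⟨P, h2, dvd_rfl⟩)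
  rw [hEq]
  have h0 : (0 : ℝ) ≤ d := Nat.cast_nonneg d
  linarith

end

end Pool.Agent.Helper54.PT
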