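import Pool.Agent.Helper31.TW.St1

set_option autoImplicit false

/-!
PROJECT TW (MP_434a84_lc), module PKH: theorem of Parikh in which every period comes from a pump.
-/

namespace Pool.Agent.Helper16.TW

open Symbol Pool.Agent.Helper22.FL Pool.Agent.Helper22.CS Pool.Agent.Helper15.TS
open Pool.Agent.Helper31.TW

variable {n : ℕ} {N : Type}

/-- Parikh vectors of the short words -/
private def EU (R : Set (ContextFreeRule (Fin n) N)) (X : N) (p : ℕ)
    (U : Set (List (Symbol (Fin n) N))) : Set (Fin n → ℕ) :=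
  {c | ∃ w : List (Fin n), DU R U [nonterminal X] w ∧ w.length < p ∧ c = parikh w}

/-- Parikh vectors of the short loops -/
private def FU (R : Set (ContextFreeRule (Fin n) N)) (B : ℕ)
    (U : Set (List (Symbol (Fin n) N))) : Set (Fin n → ℕ) :=
  {q | ∃ β ∈ U, ∃ W ⊆ U, ∃ v y : List (Fin n), RU R W β v y β ∧ 1 ≤ v.length + y.length ∧
    v.length + y.length ≤ B ∧ q = parikh v + parikh y}

private theorem EU_fin (R : Set (ContextFreeRule (Fin n) N)) (X : N) (p : ℕ)
    (U : Set (List (Symbol (Fin n) N))) : (EU R X p U).Finite := by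
  refine ((List.finite_length_lt (Fin n) p).image parikh).subset ?_
  rintro c ⟨w, -, hw, rfl⟩
  exact ⟨w, hw, rfl⟩

private theorem FU_fin (R : Set (ContextFreeRule (Fin n) N)) (B : ℕ)
    (U : Set (List (Symbol (Fin n) N))) : (FU R B U).Finite := by
  refine ((List.finite_length_lt (Fin n) (B + 1)).image2
    (fun v y => parikh v + parikh y) (List.finite_length_lt (Fin n) (B + 1))).subset ?_
  rintro c ⟨β, -, W, -, v, y, -, -, hB, rfl⟩
  refine ⟨v, ?_, y, ?_, rfl⟩
  · change v.length < B + 1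
    omega
  · change y.length < B + 1
    omega

/-- iteration of a loop -/
private theorem iter {R : Set (ContextFreeRule (Fin n) N)} {W U : Set (List (Symbol (Fin n) N))}
    {β : List (Symbol (Fin n) N)} {v y x : List (Fin n)} (h : RU R W β v y β) (hx : DU R U β x)
    (k : ℕ) : ∃ V, DU R V β ((List.replicate k v).flatten ++ x ++ (List.replicate k y).flatten) := by
  induction k with
  | zero => exact ⟨U, by simpa using hx⟩
  | succ k ih =>
    obtain ⟨V, hV⟩ := ih
    refine ⟨W ∪ V, ?_⟩
    have := h V _ hV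
    rw [List.replicate_succ, List.flatten_cons, List.replicate_succ', List.flatten_append]
    simpa using this

/-- insertion of loops -/
private theorem ins (hPKI : StPKI) {R : Set (ContextFreeRule (Fin n) N)} {X : N} {B : ℕ}
    {U : Set (List (Symbol (Fin n) N))} {w : List (Fin n)} (hw : DU R U [nonterminal X] w)
    (t : (Fin n → ℕ) → ℕ) (S : Finset (Fin n → ℕ)) (hS : ∀ q ∈ S, q ∈ FU R B U) :
    ∃ w' : List (Fin n), DU R U [nonterminal X] w' ∧ parikh w' = parikh w + ∑ q ∈ S, t q • q := by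
  classical
  induction S using Finset.induction_on with
  | empty => exact ⟨w, hw, by simp⟩
  | insert q S hq ih =>
    obtain ⟨w1, hw1, he1⟩ := ih (fun r hr => hS r (Finset.mem_insert_of_mem hr))
    obtain ⟨β, hβ, W, hW, v, y, hl, -, -, hqe⟩ := hS q (Finset.mem_insert_self q S)
    have key : ∀ k : ℕ, ∃ w' : List (Fin n), DU R U [nonterminal X] w' ∧
        parikh w' = parikh w1 + k • q := by
      intro k
      induction k with
      | zero => exact ⟨w1, hw1, by simp⟩
      | succ k ihk =>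
        obtain ⟨w2, hw2, he2⟩ := ihk
        obtain ⟨w3, hw3, he3⟩ := hPKI (Fin n) N R U W [nonterminal X] β w2 v y hw2 hβ hl
        rw [Set.union_eq_self_of_subset_right hW] at hw3
        refine ⟨w3, hw3, ?_⟩
        have h4 : parikh w3 = parikh w2 + (parikh v + parikh y) := by
          funext a
          have := he3 a
          simp only [Pi.add_apply]
          change w3.count a = w2.count a + (v.count a + y.count a)
          omega
        rw [h4, he2, ← hqe, succ_nsmul, add_assoc]
    obtain ⟨w2, hw2, he2⟩ := key (t q)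
    refine ⟨w2, hw2, ?_⟩
    rw [he2, he1, Finset.sum_insert hq, add_assoc, add_comm (∑ q ∈ S, t q • q)]

/-- removal of loops -/
private theorem rem {R : Set (ContextFreeRule (Fin n) N)} {X : N} {p B : ℕ}
    (hp : ∀ (U : Set (List (Symbol (Fin n) N))) (α : List (Symbol (Fin n) N)) (w : List (Fin n)),
      DU R U α w → α ∈ Sts R X → p ≤ w.length → ∃ β ∈ U, ∃ W ⊆ U, ∃ v y w' : List (Fin n),
      RU R W β v y β ∧ 1 ≤ v.length + y.length ∧ v.length + y.length ≤ B ∧ DU R U α w' ∧
      w.length = w'.length + v.length + y.length ∧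
      ∀ a : Fin n, w.count a = w'.count a + v.count a + y.count a)
    {U : Set (List (Symbol (Fin n) N))} (P : Finset (Fin n → ℕ)) (hP : ∀ q, q ∈ P ↔ q ∈ FU R B U)
    (m : ℕ) : ∀ w : List (Fin n), w.length ≤ m → DU R U [nonterminal X] w →
      ∃ c ∈ EU R X p U, parikh w ∈ lin c P := by
  classical
  induction m with
  | zero =>
    intro w hw h
    by_cases hlt : w.length < p
    · exact ⟨parikh w, ⟨w, h, hlt, rfl⟩, 0, by simp⟩
    · exfalso
      obtain ⟨β, -, W, -, v, y, w', -, h1, -, -, h2, -⟩ :=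
        hp U [nonterminal X] w h (Set.mem_insert _ _) (by omega)
      omega
  | succ m ih =>
    intro w hw h
    by_cases hlt : w.length < p
    · exact ⟨parikh w, ⟨w, h, hlt, rfl⟩, 0, by simp⟩
    · obtain ⟨β, hβ, W, hW, v, y, w', hl, h1, hB, hw', h2, h3⟩ :=
        hp U [nonterminal X] w h (Set.mem_insert _ _) (by omega)
      obtain ⟨c, hc, t, ht⟩ := ih w' (by omega) hw'
      have hq : parikh v + parikh y ∈ P := (hP _).2 ⟨β, hβ, W, hW, v, y, hl, h1, hB, rfl⟩
      refine ⟨c, hc, fun q => t q + if q = parikh v + parikh y then 1 else 0, ?_⟩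
      have h4 : parikh w = parikh w' + (parikh v + parikh y) := by
        funext a
        have := h3 a
        simp only [Pi.add_apply]
        change w.count a = w'.count a + (v.count a + y.count a)
        omega
      have h5 : ∑ q ∈ P, (t q + if q = parikh v + parikh y then 1 else 0) • q =
          ∑ q ∈ P, t q • q + (parikh v + parikh y) := by
        simp only [add_smul, Finset.sum_add_distrib, ite_smul, one_smul, zero_smul]
        rw [Finset.sum_ite_eq' P (parikh v + parikh y) (fun q => q), if_pos hq]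
      rw [h4, ht, h5, add_assoc]

theorem hPKH (hDUB : StDUB) (hPKR : StPKR) (hPKI : StPKI) : StPKH := by
  classical
  intro n L hL
  obtain ⟨N, R, X, hfin, rfl⟩ := exists_lang hL
  obtain ⟨d1, d2, d3, -, d5, d6⟩ := hDUB (Fin n) N R
  obtain ⟨p, B, hp⟩ := hPKR (Fin n) N R X hfin
  have hI := d6 X hfin
  let FF : Set (List (Symbol (Fin n) N)) → Finset (Fin n → ℕ) := fun U => (FU_fin R B U).toFinset
  have hFF : ∀ U q, q ∈ FF U ↔ q ∈ FU R B U := fun U q => Set.Finite.mem_toFinset _
  have hR : {r : (Fin n → ℕ) × Finset (Fin n → ℕ) | ∃ U : Set (List (Symbol (Fin n) N)),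
      U ⊆ Sts R X ∧ r.1 ∈ EU R X p U ∧ r.2 = FF U}.Finite := by
    refine (Set.Finite.biUnion hI.finite_subsets
      (fun U _ => (EU_fin R X p U).prod (Set.finite_singleton (FF U)))).subset ?_
    rintro r ⟨U, hU, h1, h2⟩
    exact Set.mem_biUnion (show U ∈ {b | b ⊆ Sts R X} from hU) ⟨h1, h2⟩
  refine ⟨hR.toFinset, ?_, ?_⟩
  · intro r hr q hq
    rw [Set.Finite.mem_toFinset] at hr
    obtain ⟨U, -, ⟨w0, hw0, -, -⟩, h2⟩ := hr
    rw [h2, hFF] at hq
    obtain ⟨β, hβ, W, -, v, y, hl, -, -, rfl⟩ := hq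
    obtain ⟨W', U', u, x, z, -, -, hc, hx⟩ := d5 U [nonterminal X] β w0 hw0 hβ
    refine ⟨u, v, x, y, z, rfl, fun k => ?_⟩
    obtain ⟨V, hV⟩ := iter hl hx k
    have h3 := d2 _ _ _ (hc V _ hV)
    rw [mem_lang]
    simpa [List.append_assoc] using h3
  · intro x
    constructor
    · rintro ⟨w, hw, rfl⟩
      obtain ⟨U, hU⟩ := d1 _ _ (mem_lang.1 hw)
      have hUI := d3 X U _ _ hU (Set.mem_insert _ _)
      obtain ⟨c, hc, hl⟩ := rem hp (FF U) (hFF U) w.length w le_rfl hU
      exact ⟨(c, FF U), (Set.Finite.mem_toFinset _).2 ⟨U, hUI, hc, rfl⟩, hl⟩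
    · rintro ⟨r, hr, t, ht⟩
      rw [Set.Finite.mem_toFinset] at hr
      obtain ⟨U, -, ⟨w0, hw0, -, h1⟩, h2⟩ := hr
      obtain ⟨w', hw', he⟩ := ins (B := B) hPKI hw0 t (FF U) (fun q hq => (hFF U q).1 hq)
      refine ⟨w', mem_lang.2 (d2 _ _ _ hw'), ?_⟩
      rw [he, ht, h1, h2]

end Pool.Agent.Helper16.TW
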